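import Pool.Agent.TH681.Pa.Low
import Pool.Agent.TH681.Pa.Alg
import Pool.Agent.TH681.Pa.Up

/-!
# Polynomial space against alternating algorithms with advice: the exact threshold

A language is in `PSPACE` if and only if it is decided in polynomial time with polynomially many
alternations. Relative to a random oracle `A` no fixed polynomial number of alternations is
sufficient, even for algorithms that quantify over strings of exponential length `2 ^ (c n)` (and
work in time polynomial in the length of these strings), get exponentially long advice, which they
may read bit by bit, and may err on a constant fraction of the inputs. More precisely, for every `d`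
there is a language `L` in `⊕P` and in `PSPACE`, relative to `A`, such that the following holds for
all constants `α ≥ 0` and `0 ≤ δ ≤ 1 / 2`, where `H` is the binary entropy.

* If `α < 1 - H(δ)`, then every algorithm with at most `n ^ d` alternations and at most
  `α 2 ^ n` bits of advice is wrong on more than `δ 2 ^ n` of the inputs of length `n`, for all
  large `n`.
* If `α > 1 - H(δ)`, then all languages whatsoever are decided correctly, on all but `δ 2 ^ n` of
  the inputs of length `n` for all large `n`, by polynomial-time algorithms with `α 2 ^ n` bits of
  advice, without any alternation.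

So the language `L` is as hard for the polynomial hierarchy, and even for the exponential hierarchy,
as an arbitrary language. It consists of the strings `x` for which the number of the strings `x w`
in `A` with `|w| = |x| ^ (d + 2)` is odd. After a random restriction all computations for all inputs
of length `n`, with a fixed advice, are decision trees of depth `2 ^ (O(n))`, while all blocks still
have more than `2 ^ n` times as many free variables. Hence the parities are uniformly distributed
and independent of the answers of the algorithm, and `θ` to the power of the number of errors has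
the expectation `((1 + θ) / 2) ^ (2 ^ n)`. The opposite bound comes from covering codes.
-/

set_option autoImplicit false

namespace Pool.Agent.Results.MP_a2d820_lc.AdviceThreshold

open Pool.Agent.H620R2.Gauge Pool.Agent.TH681.Pa Filter MeasureTheory
open Pool.Agent.H628R3.RO (randomOracle)

/-- The threshold for advice and errors, for polynomial space against alternating algorithms,
relative to almost all oracles. -/
theorem result : ∀ᵐ A ∂randomOracle, ∀ d : ℕ, ∃ L : Set (List Bool),
    IsParityP A L ∧ IsPSPACE A L ∧ ∀ α δ : ℝ, 0 ≤ α → 0 ≤ δ → δ ≤ 1 / 2 →
      (α * Real.log 2 + Real.binEntropy δ < Real.log 2 → ∀ (V : Alg) (c : ℕ), ∀ᶠ n : ℕ in atTop,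
        ∀ k m s : ℕ, k ≤ n ^ d → m ≤ 2 ^ (c * n) → (s : ℝ) ≤ α * 2 ^ n → ∀ H, Bits H s →
          δ * 2 ^ n < (wrong V A H m k L n : ℝ)) ∧
      (Real.log 2 < α * Real.log 2 + Real.binEntropy δ → ∀ L' : Set (List Bool), ∃ V : Alg,
        ∀ᶠ n : ℕ in atTop, ∃ (s : ℕ) (H : Oracle), (s : ℝ) ≤ α * 2 ^ n ∧ Bits H s ∧
          (wrong V A H 0 0 L' n : ℝ) ≤ δ * 2 ^ n) := by
  filter_upwards [low] with A hA d
  exact ⟨_, parL_parityP A (d + 2), parL_pspace (d + 2) A, fun α δ hα hδ hδ' =>
    ⟨fun h V c => hA V c d α δ hα hδ hδ' h, fun h L' => all_languages hδ hδ' h A L'⟩⟩

end Pool.Agent.Results.MP_a2d820_lc.AdviceThreshold
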