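import Pool.Agent.TH683.AL.Fin

set_option autoImplicit false

/-!
# How many alternations do parities need?

Polynomial time is Mathlib's `Turing.TM2ComputableInPolyTime`; polynomial-time oracle algorithms and
the random oracle are defined in `Pool.Agent.H620R2.Gauge.Defs`, the counting function `cf A` in
`Pool.Agent.TH683.CP.Defs`, and the classes with `k(n)` alternations, for an arbitrary function `k`,
in `Pool.Agent.TH683.AL.Defs`.

The function `cf A` counts, for `z = 1^j 0 y`, the strings `w` of length `j` with `z w` in the
oracle; its parity can be computed with `j` witness bits, and in polynomial space. The language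
`parL A κ` is this parity for the strings `z` of length `n` with `j ≤ κ(n) log n`.

* For every oracle, the parity with `κ(n) log n` witness bits can be decided with `2 κ(n)`
  alternations.
* For almost every oracle, no language decided with a majority quantifier, `k(n)` alternations and
  polynomial advice predicts the parity with `j` witness bits with an advantage of more than
  `2^(-j/(c (k(n) + 1)))`, as soon as `j ≥ c (k(n) + 1) log n`.
* So for almost every oracle and all functions `κ` and `k` at once, if the parity with `κ(n) log n`
  witness bits is decided with `k(n)` alternations (even with a majority quantifier before them and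
  with polynomial advice), then `κ(n) ≤ c (k(n) + 1)`: the first item is optimal up to a constant
  factor, from constantly many alternations (the polynomial hierarchy) to the order of `n / log n`
  alternations, and the classes with `k(n) = o(κ(n))` and with `2 κ(n)` alternations differ.
-/

namespace Pool.Agent.Results.MP_a2d820_lc.AlternationLaw

open Pool.Agent.H620R2.Gauge Pool.Agent.H943R3.PP Pool.Agent.TH683.CP Pool.Agent.TH683.AL

theorem result :
    (∀ (A : Oracle) (κ : ℕ → ℕ), IsAlt A (fun n => 2 * κ n) (parL A κ)) ∧
    ∀ᵐ A ∂ranO,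
      (∀ (k : ℕ → ℕ) (L : Set (List Bool)), IsMajAltPoly A k L →
        ∃ c : ℕ, 1 ≤ c ∧ ∀ m j : ℕ, c * (k (j + 1 + m) + 1) * Nat.log 2 m ≤ j → j ≤ m →
          (Nat.card {y : Fin m → Bool // (cod j (List.ofFn y) ∈ L ↔
            Odd (cf A (cod j (List.ofFn y))))} : ℝ) ≤
          (1 / 2 + 2 ^ (-(j : ℝ) / (c * (k (j + 1 + m) + 1)))) * 2 ^ m) ∧
      (∀ κ k : ℕ → ℕ, (∀ n ≥ 2, 2 * (κ n * Nat.log 2 n) + 1 ≤ n) →
        IsMajAltPoly A k (parL A κ) → ∃ c : ℕ, ∀ n ≥ 2, κ n ≤ c * (k n + 1)) := by
  refine ⟨isAlt_parL, ?_⟩
  filter_upwards [ae_alt] with A hA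
  refine ⟨hA, fun κ k hκ hL => ?_⟩
  obtain ⟨c, hc, h⟩ := hA k (parL A κ) hL
  refine ⟨c, need_alt (fun n => ?_) hc h⟩
  by_cases hn : 2 ≤ n
  · exact Or.inl (hκ n hn)
  · exact Or.inr (by omega)

end Pool.Agent.Results.MP_a2d820_lc.AlternationLaw
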