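import Pool.Agent.TH762.XC.Lev

/-!
# `PH = PSPACE`, level by level: excluding one vector of answers

`SigmaP j` are the levels `Σ_j` of the polynomial hierarchy (alternating polynomially bounded
quantifiers in front of polynomial-time predicates), `InPH` is their union, `InPSPACE` is polynomial
space on Mathlib's `Turing.FinTM2` machines, `InP` is `P` on the same machines and `PSPACEHard` is
hardness under polynomial-time many-one reductions.

Let `A` be `PSPACE`-hard and consider `m` questions `x₁ ∈ A`, ..., `x_m ∈ A` for strings of length at
most `n`, where `m = m (n)` is any number at most polynomial in `n`. Their answers form a vector in
`{0, 1} ^ m`. Let a family of polynomially many vectors be given which is strongly explicit: the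
entries can be computed in polynomial time from the binary codes of `m`, the number of the vector,
and the position (`L` is the set of the triples with the entry `1`).

`FeasibleIn C (Exclude L A)`: some function with values of polynomial length and graph in the class
`C` excludes one member of the family, that is, finds from the questions and `O(log n)` bits of advice
the number of a vector of the family which is not the vector of the answers.
`FeasibleIn C (ExcludeCount A)`: some such function excludes one of the `m + 1` values of the number
of positive answers. `FeasibleIn C (NotOnly A)`: some such function finds an index `i` such that
`x_i` is not the only positive answer.

For every `j ≥ 1` the following are equivalent.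

* `PSPACE = Σ_j`.
* For some `PSPACE`-hard set one vector of some such family can be excluded in `Σ_j`.
* For some `PSPACE`-hard set one value of the number of positive answers can be excluded in `Σ_j`.
* For some `PSPACE`-hard set one unit vector can be excluded in `Σ_j`.

The same holds with `PH` for `Σ_j`.

Proof. The values of the excluding function which are used are guessed and kept in tables; it is
checked in `Σ_j` that they are right (a polynomially bounded conjunction). Functions computable in
polynomial space have polynomially long candidate lists (with the table): the prefixes of the value
are found in a search tree, where for each seed `s` of a pairwise independent family of hash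
functions the vector with the number `hash_s v`, `v` the true prefix, is the vector of the answers to
questions on `A`; the function excludes a number `r_s`, and a prefix `v` is discarded if
`hash_s v = r_s` for some `s`. The truth of a quantified formula is the value of an arithmetized
expression; the candidate lists for the restrictions of the partial expressions to lines give its
value in polynomial time from the tables.
-/

set_option autoImplicit false

namespace Pool.Agent.Results.MP_a2d820_lc.ExcludedVector

open Pool.Agent.NPC Pool.Agent.TH684.EX Pool.Agent.TH762.XC
open Pool.Agent.W903.GP (SigmaP InPH)
open Pool.Agent.H623R2.PS (InPSPACE PSPACEHard)

/-- The four statements are equivalent for the class `C`. -/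
def Law (C : Set (List Bool) → Prop) : Prop := List.TFAE
  [∀ L : Set (List Bool), InPSPACE L → C L,
    ∃ A L : Set (List Bool), PSPACEHard A ∧ InP L ∧ FeasibleIn C (Exclude L A),
    ∃ A : Set (List Bool), PSPACEHard A ∧ FeasibleIn C (ExcludeCount A),
    ∃ A : Set (List Bool), PSPACEHard A ∧ FeasibleIn C (NotOnly A)]

/-- **The exclusion law for polynomial space and the levels of the polynomial hierarchy.** -/
theorem result : (∀ j : ℕ, 1 ≤ j → Law (SigmaP j)) ∧ Law InPH :=
  ⟨fun _ hj => level_excl hj, class_excl_pspace Pool.Agent.W901.NU.cl_ph⟩

end Pool.Agent.Results.MP_a2d820_lc.ExcludedVector
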