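import Pool.Agent.W903.GP.Hier

/-!
# `PH = PSPACE` as a statement about groups of permutations

The groups in question consist of length-preserving permutations of the set of all bit strings:
`GrpP` (computable in polynomial time, together with the inverse), `Grp C` (the graph is in the class
`C`, for `C = PH`, `C = Σ_k` with `k ≥ 1`, and `C = PSPACE`). The group `Aut C` consists of all
permutations with graph in `C` which, together with the inverse, are polynomially bounded.

`PH = PSPACE` if and only if in `Grp PH` every element is conjugate to its inverse, if and only if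
every element of `Grp PH` is the product of two involutions in `Grp PH`, if and only if every element
of `GrpP` is conjugate to its inverse in `Aut PH`, if and only if the groups `Grp PH` and
`Grp PSPACE` are isomorphic as abstract groups. The same holds for every level `Σ_k`, `k ≥ 1`.

(The proof is in the library folder `Pool/Agent/W903/GP` of the starting repository; this file hands
it in. A reversible clocked machine together with its time-reversed copy gives a permutation in
`GrpP` such that every conjugating permutation tells whether the machine accepts.)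
-/

set_option autoImplicit false

namespace Pool.Agent.Results.MP_a2d820_lc.PermutationGroups

open Pool.Agent.NPC Pool.Agent.NPC.PIso Pool.Agent.W903.GP

/-- The set of the length-preserving permutations of the set of bit strings whose graph is in the
class `C`. -/
def Grp (C : Set (List Bool) → Prop) : Set (Equiv.Perm (List Bool)) :=
  {f | (∀ x, (f x).length = x.length) ∧ C (graph ⇑f)}

/-- The set of the permutations of the set of bit strings whose graph is in the class `C` and for
which the lengths of `f x` and `f⁻¹ x` are polynomially bounded in the length of `x`. -/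
def Aut (C : Set (List Bool) → Prop) : Set (Equiv.Perm (List Bool)) :=
  {f | (∃ ρ : Polynomial ℕ, ∀ x, (f x).length ≤ ρ.eval x.length ∧
    (f⁻¹ x).length ≤ ρ.eval x.length) ∧ C (graph ⇑f)}

/-- The law for the class `C`: there are groups (of permutations, under composition) with the
elements `Grp C`, `Grp PSPACE`, `Aut C`, and the five statements are equivalent. -/
def Law (C : Set (List Bool) → Prop) : Prop :=
  ∃ G S A : Subgroup (Equiv.Perm (List Bool)),
    (G : Set (Equiv.Perm (List Bool))) = Grp C ∧
    (S : Set (Equiv.Perm (List Bool))) = Grp InPSPACE ∧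
    (A : Set (Equiv.Perm (List Bool))) = Aut C ∧
    List.TFAE [
      ∀ L : Set (List Bool), C L ↔ InPSPACE L,
      ∀ f ∈ G, ∃ s ∈ G, s * f * s⁻¹ = f⁻¹,
      ∀ f ∈ G, ∃ a ∈ G, ∃ b ∈ G, a * a = 1 ∧ b * b = 1 ∧ f = a * b,
      ∀ f : Equiv.Perm (List Bool), (∀ x, (f x).length = x.length) → PolyTime ⇑f →
        PolyTime ⇑f⁻¹ → ∃ s ∈ A, s * f * s⁻¹ = f⁻¹,
      Nonempty (G ≃* S)]

theorem law {C : Set (List Bool) → Prop} (hC : Nice C) : Law C := by
  refine ⟨GrpC C hC, GrpS, AutC C hC, rfl, rfl, rfl, ?_⟩
  have h := nice_tfae hC
  have e1 : (∀ L : Set (List Bool), InPSPACE L ↔ C L) ↔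
      (∀ L : Set (List Bool), C L ↔ InPSPACE L) :=
    forall_congr' fun L => ⟨fun h => h.symm, fun h => h.symm⟩
  have e4 : (∀ f ∈ GrpP, ∃ s ∈ AutC C hC, s * f * s⁻¹ = f⁻¹) ↔
      (∀ f : Equiv.Perm (List Bool), (∀ x, (f x).length = x.length) → PolyTime ⇑f →
        PolyTime ⇑f⁻¹ → ∃ s ∈ AutC C hC, s * f * s⁻¹ = f⁻¹) :=
    ⟨fun h f h1 h2 h3 => h f ⟨h1, h2, h3⟩, fun h f hf => h f hf.1 hf.2.1 hf.2.2⟩
  rw [e1, e4] at h
  exact h

/-- **`PH = PSPACE` and `Σ_k = PSPACE` as statements about groups.** -/
theorem result : Law InPH ∧ ∀ k : ℕ, Law (SigmaP (k + 1)) :=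
  ⟨law nice_ph, fun k => law (nice_sigma k)⟩

end Pool.Agent.Results.MP_a2d820_lc.PermutationGroups
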